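import Mathlib
import Pool.Agent.Helper42.KS.Goals

set_option autoImplicit false

namespace Pool.Agent.Helper42.KS.PkNB

open MeasureTheory Filter Topology
open scoped ENNReal NNReal

lemma norm_ee (t : ℝ) : ‖ee t‖ = 1 := by
  unfold ee
  exact Complex.norm_exp_ofReal_mul_I _

lemma cont_ee (u : ℝ) : Continuous fun B : ℝ => ee (-(u * B)) := by
  unfold ee
  fun_prop

lemma ee_add (s t : ℝ) : ee (s + t) = ee s * ee t := by
  unfold ee
  rw [← Complex.exp_add]
  congr 1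
  push_cast
  ring

lemma pw (k d : ℕ) (hk : 1 ≤ k) (hkd : k ≤ d) (x : ℝ) (hx : 0 ≤ x) :
    (x ^ k) ^ ((d : ℝ) / k - 1) = x ^ (d - k) := by
  rw [← Real.rpow_natCast x k, ← Real.rpow_mul hx, ← Real.rpow_natCast x (d - k)]
  congr 1
  have h0 : (0 : ℝ) < k := by exact_mod_cast hk
  rw [Nat.cast_sub hkd]
  field_simp

lemma exR (k n : ℕ) (hk : 1 ≤ k) (hn : 1 ≤ n) :
    ∃ r : ℕ, 1 ≤ r ∧ r ^ k ≤ n ∧ n < (r + 1) ^ k := by
  have h : ∃ R : ℕ, n < R ^ k := ⟨n + 1, by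
    calc n < (n + 1) ^ 1 := by rw [pow_one]; omega
    _ ≤ (n + 1) ^ k := Nat.pow_le_pow_right (by omega) hk⟩
  have h1 := Nat.find_spec h
  have h2 : ∀ m, m < Nat.find h → ¬ n < m ^ k := fun m hm => Nat.find_min h hm
  generalize Nat.find h = R at h1 h2
  have hR : 2 ≤ R := by
    by_contra hc
    have h3 : R ^ k ≤ 1 ^ k := Nat.pow_le_pow_left (by omega) k
    rw [one_pow] at h3
    omega
  refine ⟨R - 1, by omega, ?_, by rwa [Nat.sub_add_cancel (by omega)]⟩
  have h3 := h2 (R - 1) (by omega)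
  omega

/-- the integrand of the singular integral -/
noncomputable def FF (k d : ℕ) (u B : ℝ) : ℂ := ee (-(u * B)) * (VV k B 0) ^ d

lemma norm_FF (k d : ℕ) (u B : ℝ) : ‖FF k d u B‖ = ‖VV k B 0‖ ^ d := by
  unfold FF
  rw [norm_mul, norm_ee, one_mul, norm_pow]

lemma int_FF (k d : ℕ) (h : Integrable (FF k d 1)) (u : ℝ) : Integrable (FF k d u) := by
  have he : FF k d u = fun B => ee (-((u - 1) * B)) * FF k d 1 B := by
    funext B
    unfold FF
    rw [← mul_assoc, ← ee_add]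
    congr 2
    ring
  rw [he]
  refine Integrable.mono h ?_ ?_
  · exact (cont_ee (u - 1)).aestronglyMeasurable.mul h.aestronglyMeasurable
  · filter_upwards with B
    rw [norm_mul, norm_ee, one_mul]

lemma tail (k d : ℕ) (C : ℝ) (h : Integrable (FF k d 1))
    (hC : ∀ N M : ℝ, 0 ≤ N →
      ∫ B in {B : ℝ | N < |B| ∧ |B| ≤ M}, ‖VV k B 0‖ ^ d ≤ C * (1 + N) ^ (1 - (d : ℝ) / k))
    (u M : ℝ) (hM : 0 ≤ M) :
    ‖(∫ B, FF k d u B) - ∫ B in {B : ℝ | |B| ≤ M}, FF k d u B‖ ≤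
      C * (1 + M) ^ (1 - (d : ℝ) / k) := by
  have hu := int_FF k d h u
  have hm : MeasurableSet {B : ℝ | |B| ≤ M} := measurableSet_le (by fun_prop) measurable_const
  have h1 : (∫ B, FF k d u B) - ∫ B in {B : ℝ | |B| ≤ M}, FF k d u B =
      ∫ B in {B : ℝ | |B| ≤ M}ᶜ, FF k d u B := by
    rw [← integral_add_compl hm hu]
    ring
  rw [h1]
  refine (norm_integral_le_integral_norm _).trans ?_
  have hs : {B : ℝ | |B| ≤ M}ᶜ = ⋃ m : ℕ, {B : ℝ | M < |B| ∧ |B| ≤ (m : ℝ)} := by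
    ext B
    simp only [Set.mem_compl_iff, Set.mem_ofPred_eq, not_le, Set.mem_iUnion]
    constructor
    · intro hB
      obtain ⟨m, hm⟩ := exists_nat_ge |B|
      exact ⟨m, hB, hm⟩
    · rintro ⟨m, hB, _⟩
      exact hB
  have hlim := tendsto_setIntegral_of_monotone (μ := (volume : Measure ℝ))
    (s := fun m : ℕ => {B : ℝ | M < |B| ∧ |B| ≤ (m : ℝ)}) (f := fun B => ‖FF k d u B‖)
    (fun m => by
      have h2 : MeasurableSet {B : ℝ | M < |B|} := measurableSet_lt measurable_const (by fun_prop)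
      have h3 : MeasurableSet {B : ℝ | |B| ≤ (m : ℝ)} :=
        measurableSet_le (by fun_prop) measurable_const
      exact h2.inter h3)
    (by
      intro a b hab B hB
      exact ⟨hB.1, hB.2.trans (by exact_mod_cast hab)⟩)
    (hu.norm.integrableOn)
  rw [hs]
  refine le_of_tendsto' hlim fun m => ?_
  have h2 := hC M m hM
  simp only [norm_FF]
  exact h2

lemma mid (k d : ℕ) (h : Integrable (FF k d 1)) (u M : ℝ) :
    ‖∫ B in {B : ℝ | |B| ≤ M}, FF k d u B‖ ≤ ∫ B, ‖FF k d 1 B‖ := by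
  refine (norm_integral_le_integral_norm _).trans ?_
  have h1 : ∀ B, ‖FF k d u B‖ = ‖FF k d 1 B‖ := fun B => by rw [norm_FF, norm_FF]
  simp only [h1]
  exact setIntegral_le_integral h.norm (Eventually.of_forall fun B => norm_nonneg _)

lemma card0 (k d : ℕ) : (orth k d 0).card ≤ 1 := by
  unfold orth
  refine (Finset.card_filter_le _ _).trans ?_
  rw [Fintype.card_piFinset]
  simp

/-- upper bound -/
lemma upper (k d : ℕ) (CS CM K : ℝ)
    (hS : ∀ X n : ℕ, ‖∑ q ∈ Finset.Icc 1 X, As k d q n‖ ≤ CS)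
    (hM : ∀ R n : ℕ, 2 ≤ R → n < R ^ k →
      ‖((orth k d n).card : ℂ) / (R : ℂ) ^ (d - k) -
        (∑ q ∈ Finset.Icc 1 ⌊(R : ℝ) ^ (1 / 16 : ℝ)⌋₊, As k d q n) *
        ∫ B in {B : ℝ | |B| ≤ (R : ℝ) ^ (1 / 16 : ℝ)},
          FF k d ((n : ℝ) / (R : ℝ) ^ k) B‖ ≤ CM * (R : ℝ) ^ (-(1 / 8) : ℝ))
    (hK : ∀ u M : ℝ, ‖∫ B in {B : ℝ | |B| ≤ M}, FF k d u B‖ ≤ K)
    (R n : ℕ) (hR : 2 ≤ R) (hn : n < R ^ k) :
    ((orth k d n).card : ℝ) ≤ (|CM| + CS * K) * (R : ℝ) ^ (d - k) := by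
  have h1 := hM R n hR hn
  set S := ∑ q ∈ Finset.Icc 1 ⌊(R : ℝ) ^ (1 / 16 : ℝ)⌋₊, As k d q n with hSdef
  set J := ∫ B in {B : ℝ | |B| ≤ (R : ℝ) ^ (1 / 16 : ℝ)}, FF k d ((n : ℝ) / (R : ℝ) ^ k) B
    with hJdef
  have hR0 : (0 : ℝ) < R := by exact_mod_cast (by omega : 0 < R)
  have hR1 : (1 : ℝ) ≤ R := by exact_mod_cast (by omega : 1 ≤ R)
  have hCS : 0 ≤ CS := (norm_nonneg _).trans (hS 0 0)
  have h2 : ‖S * J‖ ≤ CS * K := by
    rw [norm_mul]
    exact mul_le_mul (hS _ _) (hK _ _) (norm_nonneg _) hCS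
  have h3 : CM * (R : ℝ) ^ (-(1 / 8) : ℝ) ≤ |CM| := by
    have h4 : (R : ℝ) ^ (-(1 / 8) : ℝ) ≤ 1 :=
      Real.rpow_le_one_of_one_le_of_nonpos hR1 (by norm_num)
    have h5 : 0 ≤ (R : ℝ) ^ (-(1 / 8) : ℝ) := by positivity
    calc CM * (R : ℝ) ^ (-(1 / 8) : ℝ) ≤ |CM| * (R : ℝ) ^ (-(1 / 8) : ℝ) :=
          mul_le_mul_of_nonneg_right (le_abs_self _) h5
      _ ≤ |CM| * 1 := mul_le_mul_of_nonneg_left h4 (abs_nonneg _)
      _ = |CM| := mul_one _
  have h6 : ‖((orth k d n).card : ℂ) / (R : ℂ) ^ (d - k)‖ ≤ |CM| + CS * K := by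
    have h7 := norm_add_le (((orth k d n).card : ℂ) / (R : ℂ) ^ (d - k) - S * J) (S * J)
    rw [sub_add_cancel] at h7
    linarith
  rw [norm_div, norm_pow, Complex.norm_natCast, Complex.norm_natCast] at h6
  rwa [div_le_iff₀ (by positivity)] at h6

theorem thm : G_SS → G_SINT → G_LOW → G_MAJ → G_NB := by
  intro hSS hSI hLO hMA k hk
  obtain ⟨D₁, hD₁⟩ := hSS k hk
  obtain ⟨D₂, hD₂⟩ := hMA k hk
  refine ⟨max (max D₁ D₂) (2 * k + 1), fun d hd => ?_⟩
  obtain ⟨c₁, CS, X₀, hc₁, hS1, hS2, hS3⟩ := hD₁ d (by omega)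
  obtain ⟨CM, hCM⟩ := hD₂ d (by omega)
  have hdk : 2 * k < d := by omega
  obtain ⟨c₂, hc₂, hI⟩ := hSI k d (by omega) hdk
  obtain ⟨CL, hCL⟩ := hLO k d (by omega) (by omega)
  have hF : Integrable (FF k d 1) := by
    by_contra hc
    have h1 := hI 1 (by norm_num) le_rfl
    have h2 : (∫ B : ℝ, ee (-(1 * B)) * (VV k B 0) ^ d) = 0 := integral_undef hc
    rw [h2, Complex.zero_re] at h1
    linarith
  have hup := upper k d CS CM (∫ B, ‖FF k d 1 B‖) hS1 hCM (fun u M => mid k d hF u M)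
  set U := |CM| + CS * ∫ B, ‖FF k d 1 B‖ with hU
  have hU0 : 0 ≤ U := by
    have h1 : 0 ≤ CS := (norm_nonneg _).trans (hS1 0 0)
    have h2 : 0 ≤ ∫ B, ‖FF k d 1 B‖ := integral_nonneg fun B => norm_nonneg _
    positivity
  -- eventual conditions
  have hkR : (0 : ℝ) < k := by exact_mod_cast (by omega : 0 < k)
  have ht16 : Tendsto (fun R : ℕ => (R : ℝ) ^ (1 / 16 : ℝ)) atTop atTop :=
    (tendsto_rpow_atTop (by norm_num)).comp tendsto_natCast_atTop_atTop
  have ht8 : Tendsto (fun R : ℕ => |CM| * (R : ℝ) ^ (-(1 / 8) : ℝ)) atTop (𝓝 0) := by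
    have h1 := (tendsto_rpow_neg_atTop (y := 1 / 8) (by norm_num)).comp
      (tendsto_natCast_atTop_atTop (R := ℝ))
    simpa using h1.const_mul |CM|
  have hdk1 : (1 : ℝ) - (d : ℝ) / k < 0 := by
    have h1 : (1 : ℝ) < (d : ℝ) / k := by
      rw [lt_div_iff₀ hkR]
      have : (k : ℝ) < d := by exact_mod_cast (by omega : k < d)
      linarith
    linarith
  have htL : Tendsto (fun R : ℕ => CL * (1 + (R : ℝ) ^ (1 / 16 : ℝ)) ^ (1 - (d : ℝ) / k))
      atTop (𝓝 0) := by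
    have h0 : Tendsto (fun R : ℕ => 1 + (R : ℝ) ^ (1 / 16 : ℝ)) atTop atTop :=
      tendsto_atTop_add_const_left _ _ ht16
    have h1 := (tendsto_rpow_neg_atTop (y := (d : ℝ) / k - 1) (by linarith)).comp h0
    have h2 := h1.const_mul CL
    rw [mul_zero] at h2
    refine h2.congr fun R => ?_
    simp only [Function.comp]
    congr 2
    ring
  have hcc : 0 < c₁ * c₂ / 4 := by positivity
  have ev := (ht16.eventually_ge_atTop (X₀ : ℝ)).and
    ((ht8.eventually (gt_mem_nhds hcc)).and ((htL.eventually (gt_mem_nhds (half_pos hc₂))).and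
      (eventually_ge_atTop (2 * k))))
  obtain ⟨R₀, hR₀⟩ := eventually_atTop.1 ev
  refine ⟨c₁ * c₂ / 4, max (U * 2 ^ (d - k)) (max U 1), R₀ ^ k + 1, hcc, ?_, ?_, ?_⟩
  · -- lower bound
    intro n hn
    obtain ⟨r, hr1, hr2, hr3⟩ := exR k n (by omega) (by omega)
    have hRR : R₀ ≤ r + 1 := by
      by_contra hc
      have h1 : (r + 1) ^ k ≤ R₀ ^ k := Nat.pow_le_pow_left (by omega) k
      omega
    obtain ⟨e1, e2, e3, e4⟩ := hR₀ (r + 1) hRR
    have hM := hCM (r + 1) n (by omega) hr3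
    set R := r + 1 with hR
    have hR0 : (0 : ℝ) < R := by exact_mod_cast (by omega : 0 < R)
    set S := ∑ q ∈ Finset.Icc 1 ⌊(R : ℝ) ^ (1 / 16 : ℝ)⌋₊, As k d q n with hSdef
    set u := (n : ℝ) / (R : ℝ) ^ k with hu
    have hu1 : u ≤ 1 := by
      rw [hu, div_le_one (by positivity)]
      exact_mod_cast hr3.le
    have hu2 : 1 / 2 ≤ u := by
      rw [hu, le_div_iff₀ (by positivity)]
      have h1 : ((r : ℝ)) ^ k ≤ n := by exact_mod_cast hr2
      have h2 : (1 : ℝ) / 2 ≤ (1 + (-(1 / (R : ℝ)))) ^ k := by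
        have hb := one_add_mul_le_pow (a := (-(1 / (R : ℝ)))) (by
          have : 1 / (R : ℝ) ≤ 1 := by
            rw [div_le_one hR0]
            exact_mod_cast (by omega : 1 ≤ R)
          linarith) k
        refine le_trans ?_ hb
        have h3 : (k : ℝ) * (1 / R) ≤ 1 / 2 := by
          rw [mul_one_div, div_le_iff₀ hR0]
          have : ((2 * k : ℕ) : ℝ) ≤ R := by exact_mod_cast e4
          push_cast at this
          linarith
        linarith
      have h4 : (1 + (-(1 / (R : ℝ)))) * R = r := by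
        rw [hR]
        push_cast
        have : (r : ℝ) + 1 ≠ 0 := by positivity
        field_simp
        ring
      calc 1 / 2 * (R : ℝ) ^ k ≤ (1 + (-(1 / (R : ℝ)))) ^ k * (R : ℝ) ^ k :=
            mul_le_mul_of_nonneg_right h2 (by positivity)
        _ = (r : ℝ) ^ k := by rw [← mul_pow, h4]
        _ ≤ n := h1
    have hJ := tail k d CL hF hCL u ((R : ℝ) ^ (1 / 16 : ℝ)) (by positivity)
    have hJ0 : c₂ ≤ (∫ B, FF k d u B).re := hI u hu2 hu1
    have hM' : ‖((orth k d n).card : ℂ) / (R : ℂ) ^ (d - k) -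
        S * ∫ B in {B : ℝ | |B| ≤ (R : ℝ) ^ (1 / 16 : ℝ)}, FF k d u B‖ ≤
        CM * (R : ℝ) ^ (-(1 / 8) : ℝ) := hM
    set JM := ∫ B in {B : ℝ | |B| ≤ (R : ℝ) ^ (1 / 16 : ℝ)}, FF k d u B with hJM
    have hJr : c₂ / 2 ≤ JM.re := by
      have h1 : ((∫ B, FF k d u B) - JM).re ≤ c₂ / 2 :=
        (Complex.re_le_norm _).trans (hJ.trans e3.le)
      rw [Complex.sub_re] at h1
      linarith
    have hSr : c₁ ≤ S.re := hS3 _ _ (Nat.le_floor e1)
    have hSi : S.im = 0 := hS2 _ _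
    have hSJ : c₁ * (c₂ / 2) ≤ (S * JM).re := by
      rw [Complex.mul_re, hSi, zero_mul, sub_zero]
      exact mul_le_mul hSr hJr (by positivity) (by linarith)
    have hlow : c₁ * c₂ / 4 ≤ (((orth k d n).card : ℂ) / (R : ℂ) ^ (d - k)).re := by
      have h1 : (S * JM - ((orth k d n).card : ℂ) / (R : ℂ) ^ (d - k)).re ≤ c₁ * c₂ / 4 := by
        refine (Complex.re_le_norm _).trans ?_
        rw [norm_sub_rev]
        refine hM'.trans ?_
        refine le_trans ?_ e2.le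
        exact mul_le_mul_of_nonneg_right (le_abs_self _) (by positivity)
      rw [Complex.sub_re] at h1
      linarith
    have hre : (((orth k d n).card : ℂ) / (R : ℂ) ^ (d - k)).re =
        ((orth k d n).card : ℝ) / (R : ℝ) ^ (d - k) := by
      have : ((orth k d n).card : ℂ) / (R : ℂ) ^ (d - k) =
          ((((orth k d n).card : ℝ) / (R : ℝ) ^ (d - k) : ℝ) : ℂ) := by
        push_cast
        rfl
      rw [this, Complex.ofReal_re]
    rw [hre, le_div_iff₀ (by positivity)] at hlow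
    refine le_trans ?_ hlow
    refine mul_le_mul_of_nonneg_left ?_ hcc.le
    rw [← pw k d (by omega) (by omega) (R : ℝ) hR0.le]
    refine Real.rpow_le_rpow (by positivity) (by exact_mod_cast hr3.le) (by linarith)
  · intro n hn
    obtain ⟨r, hr1, hr2, hr3⟩ := exR k n (by omega) (by omega)
    have h1 := hup (r + 1) n (by omega) hr3
    have h2 : ((r + 1 : ℕ) : ℝ) ≤ 2 * r := by
      have : (1 : ℝ) ≤ r := by exact_mod_cast hr1
      push_cast
      linarith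
    have h3 : ((r + 1 : ℕ) : ℝ) ^ (d - k) ≤ 2 ^ (d - k) * (n : ℝ) ^ ((d : ℝ) / k - 1) := by
      calc ((r + 1 : ℕ) : ℝ) ^ (d - k) ≤ (2 * r : ℝ) ^ (d - k) :=
            pow_le_pow_left₀ (by positivity) h2 _
        _ = 2 ^ (d - k) * (r : ℝ) ^ (d - k) := by rw [mul_pow]
        _ ≤ _ := by
            refine mul_le_mul_of_nonneg_left ?_ (by positivity)
            rw [← pw k d (by omega) (by omega) (r : ℝ) (by positivity)]
            exact Real.rpow_le_rpow (by positivity) (by exact_mod_cast hr2) (by linarith)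
    have h4 : 0 ≤ (n : ℝ) ^ ((d : ℝ) / k - 1) := by positivity
    calc ((orth k d n).card : ℝ) ≤ U * ((r + 1 : ℕ) : ℝ) ^ (d - k) := h1
      _ ≤ U * (2 ^ (d - k) * (n : ℝ) ^ ((d : ℝ) / k - 1)) := mul_le_mul_of_nonneg_left h3 hU0
      _ = U * 2 ^ (d - k) * (n : ℝ) ^ ((d : ℝ) / k - 1) := by ring
      _ ≤ _ := mul_le_mul_of_nonneg_right (le_max_left _ _) h4
  · intro j n hn
    rcases Nat.eq_zero_or_pos j with hj | hj
    · subst hj
      rw [zero_mul, pow_zero] at hn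
      have hn0 : n = 0 := by omega
      subst hn0
      rw [zero_mul, pow_zero, mul_one]
      refine le_trans ?_ ((le_max_right U 1).trans (le_max_right _ _))
      exact_mod_cast card0 k d
    · have h1 := hup (2 ^ j) n (by
        calc 2 = 2 ^ 1 := by norm_num
        _ ≤ 2 ^ j := Nat.pow_le_pow_right (by norm_num) hj) (by rwa [← pow_mul])
      rw [Nat.cast_pow, Nat.cast_ofNat, ← pow_mul] at h1
      refine h1.trans (mul_le_mul_of_nonneg_right ?_ (by positivity))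
      exact (le_max_left _ _).trans (le_max_right _ _)

end Pool.Agent.Helper42.KS.PkNB

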